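import Pool.Agent.Helper72.AI.Stmts

/-!
Packet S_hex: a truncated triangle is the convex hull of its six vertices.
-/

namespace Pool.Agent.Helper47.AI

open AffInc

theorem seg {G : Set (ℝ × ℝ)} (hG : Convex ℝ G) (A B : ℝ × ℝ) {p q x : ℝ} (hp : A + p • B ∈ G)
    (hq : A + q • B ∈ G) (h1 : p ≤ x) (h2 : x ≤ q) : A + x • B ∈ G := by
  have hc : Convex ℝ {s : ℝ | A + s • B ∈ G} := by
    intro s hs t ht a b ha hb hab
    have h := hG hs ht ha hb hab
    have e : a • (A + s • B) + b • (A + t • B) = A + (a • s + b • t) • B := by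
      have h3 : a = 1 - b := by linarith
      subst h3
      ext <;> simp <;> ring
    rw [e] at h
    exact h
  exact hc.ordConnected.out hp hq ⟨h1, h2⟩

theorem edge {G : Set (ℝ × ℝ)} (hG : Convex ℝ G) (A B : ℝ × ℝ) (r s : ℝ)
    (h1 : (1 - r) • A + r • B ∈ G) (h2 : (1 - s) • B + s • A ∈ G) (a b : ℝ) (hab : a + b = 1)
    (ha : a ≤ 1 - r) (hb : b ≤ 1 - s) : a • A + b • B ∈ G := by
  have e1 : (1 - r) • A + r • B = B + (1 - r) • (A - B) := by ext <;> simp <;> ring
  have e2 : (1 - s) • B + s • A = B + s • (A - B) := by ext <;> simp <;> ring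
  rw [e1] at h1
  rw [e2] at h2
  have h3 := seg hG B (A - B) h2 h1 (x := a) (by linarith) ha
  have e3 : B + a • (A - B) = a • A + b • B := by
    have h4 : b = 1 - a := by linarith
    subst h4
    ext <;> simp <;> ring
  rwa [e3] at h3

theorem corner {G : Set (ℝ × ℝ)} (hG : Convex ℝ G) (A B C : ℝ × ℝ) (r : ℝ)
    (h1 : (1 - r) • A + r • B ∈ G) (h2 : (1 - r) • A + r • C ∈ G) (b c : ℝ) (hb : 0 ≤ b)
    (hc : 0 ≤ c) (hbc : b + c = r) : (1 - r) • A + b • B + c • C ∈ G := by
  have e1 : (1 - r) • A + r • B = ((1 - r) • A + r • C) + r • (B - C) := by ext <;> simp <;> ring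
  have e2 : (1 - r) • A + r • C = ((1 - r) • A + r • C) + (0 : ℝ) • (B - C) := by simp
  rw [e1] at h1
  rw [e2] at h2
  have h3 := seg hG ((1 - r) • A + r • C) (B - C) h2 h1 (x := b) hb (by linarith)
  have e3 : ((1 - r) • A + r • C) + b • (B - C) = (1 - r) • A + b • B + c • C := by
    subst hbc
    ext <;> simp <;> ring
  rwa [e3] at h3

theorem hex_aux {G : Set (ℝ × ℝ)} (hG : Convex ℝ G) (A B C : ℝ × ℝ) (r s t : ℝ)
    (hAB : (1 - r) • A + r • B ∈ G) (hAC : (1 - r) • A + r • C ∈ G)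
    (hBA : (1 - s) • B + s • A ∈ G) (hBC : (1 - s) • B + s • C ∈ G)
    (hCA : (1 - t) • C + t • A ∈ G) (hCB : (1 - t) • C + t • B ∈ G)
    (a b c : ℝ) (ha : 0 ≤ a) (hb : 0 ≤ b) (hc : 0 ≤ c) (habc : a + b + c = 1) (ha' : a ≤ 1 - r)
    (hb' : b ≤ 1 - s) (hc' : c ≤ 1 - t) : a • A + b • B + c • C ∈ G := by
  -- slide `a` with `c` fixed
  have e : ∀ x : ℝ, ((1 - c) • B + c • C) + x • (A - B) = x • A + (1 - c - x) • B + c • C := by
    intro x
    ext <;> simp <;> ring
  have hlow : ((1 - c) • B + c • C) + (max 0 (s - c)) • (A - B) ∈ G := by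
    rw [e]
    rcases le_total (s - c) 0 with h | h
    · rw [max_eq_left h]
      have := edge hG B C s t hBC hCB (1 - c) c (by ring) (by linarith) hc'
      simpa using this
    · rw [max_eq_right h]
      have := corner hG B A C s hBA hBC (s - c) c h hc (by ring)
      have e2 : (1 - s) • B + (s - c) • A + c • C = (s - c) • A + (1 - c - (s - c)) • B + c • C := by
        ext <;> simp <;> ring
      rwa [e2] at this
  have hhigh : ((1 - c) • B + c • C) + (min (1 - r) (1 - c)) • (A - B) ∈ G := by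
    rw [e]
    rcases le_total (1 - r) (1 - c) with h | h
    · rw [min_eq_left h]
      have := corner hG A B C r hAB hAC (r - c) c (by linarith) hc (by ring)
      have e2 : (1 - r) • A + (r - c) • B + c • C = (1 - r) • A + (1 - c - (1 - r)) • B + c • C := by
        ext <;> simp
      rwa [e2] at this
    · rw [min_eq_right h]
      have := edge hG A C r t hAC hCA (1 - c) c (by ring) h hc'
      simpa using this
  have h3 := seg hG _ _ hlow hhigh (x := a) (max_le ha (by linarith)) (le_min ha' (by linarith))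
  rw [e] at h3
  have h4 : 1 - c - a = b := by linarith
  rwa [h4] at h3

theorem pf_S_hex : AffInc.S_hex := by
  intro G hG X r _ _ hY μ hμ hsum hμ'
  rw [Fin.sum_univ_three] at hsum ⊢
  exact hex_aux hG (X 0) (X 1) (X 2) (r 0) (r 1) (r 2)
    (hY 0 1 (by decide)) (hY 0 2 (by decide)) (hY 1 0 (by decide)) (hY 1 2 (by decide))
    (hY 2 0 (by decide)) (hY 2 1 (by decide)) (μ 0) (μ 1) (μ 2) (hμ 0) (hμ 1) (hμ 2) hsum
    (hμ' 0) (hμ' 1) (hμ' 2)

end Pool.Agent.Helper47.AI
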