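import Pool.Agent.Helper72.AI.Stmts
import Pool.Agent.Helper47.AI.S_hex

/-!
Packet S_inscribed: inscribed affine images of a centrally symmetric hexagon.
-/

namespace Pool.Agent.Helper47.AI

open AffInc

theorem dir_pi (θ : ℝ) : dir (θ + Real.pi) = -dir θ := by
  ext <;> simp [dir]

theorem nrm_pi (θ : ℝ) (p : ℝ × ℝ) : nrm (θ + Real.pi) p = -nrm θ p := by
  simp [nrm]; ring

theorem nrm_add (θ : ℝ) (p q : ℝ × ℝ) : nrm θ (p + q) = nrm θ p + nrm θ q := by
  simp [nrm]; ring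

theorem nrm_smul_dir (θ ℓ : ℝ) : nrm θ (ℓ • dir θ) = 0 := by
  simp [nrm, dir]; ring

theorem dir_ne (θ : ℝ) : dir θ ≠ 0 := by
  intro h
  have h1 : Real.cos θ = 0 := congrArg Prod.fst h
  have h2 : Real.sin θ = 0 := congrArg Prod.snd h
  have h3 := Real.sin_sq_add_cos_sq θ
  rw [h1, h2] at h3
  norm_num at h3

theorem pf_S_inscribed (h1 : AffInc.S_maxchord) (h2 : AffInc.S_lowchord) (h3 : AffInc.S_cross)
    (h4 : AffInc.S_bdry) (h5 : AffInc.S_ivt) : AffInc.S_inscribed := by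
  intro G r hsc hG hr hsum
  rw [Fin.sum_univ_three] at hsum
  have hr0 := hr 0
  have hr1 := hr 1
  have hr2 := hr 2
  obtain ⟨L, hL⟩ := h1 G hG
  obtain ⟨P, hP⟩ := h2 G L hsc hG hL
  set ρ : ℝ := r 1 / (r 0 + r 1) with hρ
  set τ : ℝ := r 0 * r 1 / ((r 0 + r 1) * r 2) with hτ
  have hρ0 : 0 < ρ := by positivity
  have hρ1 : ρ < 1 := by rw [hρ, div_lt_one (by positivity)]; linarith
  have hτ0 : 0 < τ := by positivity
  obtain ⟨hc1, hc2, hc3⟩ := h3 G L P ρ τ hsc hG hL hP hρ0 hρ1 hτ0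
  obtain ⟨θ, a, ha0, ha1, hR, hLft⟩ := h5 G L P ρ τ hG hL hP hc1 hc2 hc3
  have haI : a ∈ Set.Icc (0 : ℝ) 1 := ⟨ha0.le, ha1.le⟩
  obtain ⟨hBL, hBR⟩ := h4 G L P hsc hG hL hP θ a ha0 ha1
  obtain ⟨hTR, hTL⟩ := h4 G L P hsc hG hL hP (θ + Real.pi) a ha0 ha1
  have hLper : L (θ + Real.pi) = L θ := hL.per θ
  have hPper : P (θ + Real.pi + Real.pi, a) = P (θ, a) := by
    have := hP.per θ a haI
    rwa [show θ + 2 * Real.pi = θ + Real.pi + Real.pi by ring] at this
  unfold pR at hR hLft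
  rw [hPper] at hLft
  rw [hLper, dir_pi] at hTL hLft
  set E := dir θ with hE
  set BL := P (θ, a) with hBLdef
  set TR := P (θ + Real.pi, a) with hTRdef
  set ℓ := a * L θ with hℓ
  have hLpos : 0 < L θ := hL.pos θ
  have hℓpos : 0 < ℓ := by positivity
  have hs : r 0 + r 1 ≠ 0 := by positivity
  have hr2' : r 2 ≠ 0 := hr2.ne'
  have hr2e : r 2 = 1 - r 0 - r 1 := by linarith
  let U : ℝ × ℝ := (ℓ / r 2) • E
  let W : ℝ × ℝ := (1 / (r 0 + r 1)) • ((TR - (BL + ℓ • E)) - r 1 • U)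
  let X0 : ℝ × ℝ := BL - r 0 • U
  have hU : r 2 • U = ℓ • E := by
    show r 2 • ((ℓ / r 2) • E) = ℓ • E
    rw [smul_smul, mul_div_cancel₀ _ hr2']
  have hW : (r 0 + r 1) • W = (TR - (BL + ℓ • E)) - r 1 • U := by
    show (r 0 + r 1) • ((1 / (r 0 + r 1)) • ((TR - (BL + ℓ • E)) - r 1 • U)) = _
    rw [smul_smul, mul_one_div_cancel hs, one_smul]
  have hUW : r 0 • W = (1 - ρ) • (TR - (BL + ℓ • E)) - (τ * ℓ) • E := by
    have e1 : r 0 = (1 - ρ) * (r 0 + r 1) := by rw [hρ]; field_simp; ring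
    have e2 : (τ * ℓ) • E = ((1 - ρ) * r 1) • U := by
      show (τ * ℓ) • E = ((1 - ρ) * r 1) • ((ℓ / r 2) • E)
      rw [smul_smul]
      congr 1
      rw [hτ, hρ]
      field_simp
      ring
    calc r 0 • W = ((1 - ρ) * (r 0 + r 1)) • W := by rw [← e1]
      _ = (1 - ρ) • ((TR - (BL + ℓ • E)) - r 1 • U) := by rw [mul_smul, hW]
      _ = (1 - ρ) • (TR - (BL + ℓ • E)) - (τ * ℓ) • E := by rw [e2, smul_sub, smul_smul]
  have hUV : r 1 • W + r 1 • U = ρ • (TR - (BL + ℓ • E)) + (τ * ℓ) • E := by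
    have e1 : r 1 • W = (r 0 + r 1) • W - r 0 • W := by rw [add_smul]; abel
    have e3 : r 1 • W + r 1 • U = (r 0 + r 1) • W - r 0 • W + r 1 • U := by rw [e1]
    rw [e3, hW, hUW]
    module
  have hX0 : (BL - r 0 • U) = X0 := rfl
  refine ⟨![X0, X0 + U, X0 + U + W], ?_, ?_⟩
  · -- nondegeneracy
    intro hdet
    have hcross : U.1 * W.2 - U.2 * W.1 = 0 := by
      have : det3 ![X0, X0 + U, X0 + U + W] = U.1 * W.2 - U.2 * W.1 := by
        simp [det3]; ring
      rw [← this]; exact hdet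
    have hn : nrm θ W = 0 := by
      have e1 : U.1 * W.2 - U.2 * W.1 = (ℓ / r 2) * nrm θ W := by
        show (ℓ / r 2) * Real.cos θ * W.2 - (ℓ / r 2) * Real.sin θ * W.1 = _
        unfold nrm; ring
      rw [e1] at hcross
      rcases mul_eq_zero.1 hcross with h | h
      · have : 0 < ℓ / r 2 := by positivity
        linarith
      · exact h
    have hn2 : nrm θ TR = nrm θ BL := by
      have e1 : TR = BL + ((r 0 + r 1) • W + (ℓ + r 1 * (ℓ / r 2)) • E) := by
        rw [hW]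
        show TR = BL + ((TR - (BL + ℓ • E)) - r 1 • ((ℓ / r 2) • E) +
          (ℓ + r 1 * (ℓ / r 2)) • E)
        module
      rw [e1, nrm_add, nrm_add, nrm_smul_dir]
      have : nrm θ ((r 0 + r 1) • W) = (r 0 + r 1) * nrm θ W := by
        simp [nrm]; ring
      rw [this, hn]; ring
    have hlow := hP.low θ a haI
    have hlow2 := hP.low (θ + Real.pi) a haI
    have huniq : ∀ X ∈ G, X + ℓ • E ∈ G → X = BL := by
      intro X hX hX'
      obtain ⟨h6, h7⟩ := hlow X hX hX'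
      have h8 := (hlow2 (X + ℓ • E) hX' (by
        rw [hLper, dir_pi]
        have : X + ℓ • E + ℓ • -E = X := by simp
        rw [this]; exact hX)).1
      rw [nrm_pi, nrm_pi, nrm_add, nrm_smul_dir] at h8
      have h9 : nrm θ TR = nrm θ BL := hn2
      apply h7
      linarith
    obtain ⟨Z, hZ, hZ'⟩ := hL.att θ
    have hseg : ∀ x : ℝ, 0 ≤ x → x ≤ L θ → Z + x • E ∈ G := fun x hx hx' =>
      seg hG.cvx Z E (p := 0) (q := L θ) (by simpa using hZ) hZ' hx hx'
    have hZ1 : Z = BL := huniq Z hZ (hseg ℓ hℓpos.le (by rw [hℓ]; nlinarith))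
    have hZ2 : Z + (L θ - ℓ) • E = BL := by
      refine huniq _ (hseg _ ?_ ?_) ?_
      · rw [hℓ]; nlinarith
      · linarith
      · have : Z + (L θ - ℓ) • E + ℓ • E = Z + L θ • E := by module
        rw [this]; exact hZ'
    have hZ3 : (L θ - ℓ) • E = 0 := by
      have : Z + (L θ - ℓ) • E = Z + 0 := by rw [hZ2, add_zero, hZ1]
      exact add_left_cancel this
    rcases smul_eq_zero.1 hZ3 with h | h
    · rw [hℓ] at h
      have : 0 < (1 - a) * L θ := mul_pos (by linarith) hLpos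
      nlinarith
    · exact dir_ne θ h
  · have Y01 : (1 - r 0) • X0 + r 0 • (X0 + U) ∈ frontier G := by
      have : (1 - r 0) • X0 + r 0 • (X0 + U) = BL := by
        rw [← hX0]; module
      rw [this]; exact hBL
    have Y10 : (1 - r 1) • (X0 + U) + r 1 • X0 ∈ frontier G := by
      have : (1 - r 1) • (X0 + U) + r 1 • X0 = BL + r 2 • U := by
        rw [← hX0, hr2e]; module
      rw [this, hU]; exact hBR
    have Y20 : (1 - r 2) • (X0 + U + W) + r 2 • X0 ∈ frontier G := by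
      have : (1 - r 2) • (X0 + U + W) + r 2 • X0 = BL + r 1 • U + (r 0 + r 1) • W := by
        rw [← hX0, hr2e]; module
      rw [this, hW]
      have : BL + r 1 • U + (TR - (BL + ℓ • E) - r 1 • U) = TR + ℓ • -E := by
        module
      rw [this]; exact hTL
    have Y21 : (1 - r 2) • (X0 + U + W) + r 2 • (X0 + U) ∈ frontier G := by
      have : (1 - r 2) • (X0 + U + W) + r 2 • (X0 + U) =
          BL + r 1 • U + (r 0 + r 1) • W + r 2 • U := by
        rw [← hX0, hr2e]; module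
      rw [this, hW, hU]
      have : BL + r 1 • U + (TR - (BL + ℓ • E) - r 1 • U) + ℓ • E = TR := by
        module
      rw [this]; exact hTR
    have Y12 : (1 - r 1) • (X0 + U) + r 1 • (X0 + U + W) ∈ frontier G := by
      have : (1 - r 1) • (X0 + U) + r 1 • (X0 + U + W) =
          (BL + r 2 • U) + (r 1 • W + r 1 • U) := by
        rw [← hX0, hr2e]; module
      rw [this, hU, hUV]
      have : BL + ℓ • E + (ρ • (TR - (BL + ℓ • E)) + (τ * ℓ) • E) =
          (1 - ρ) • (BL + ℓ • E) + ρ • TR + (τ * ℓ) • E := by module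
      rw [this]; exact hR
    have Y02 : (1 - r 0) • X0 + r 0 • (X0 + U + W) ∈ frontier G := by
      have : (1 - r 0) • X0 + r 0 • (X0 + U + W) = BL + r 0 • W := by
        rw [← hX0]; module
      rw [this, hUW]
      have : BL + ((1 - ρ) • (TR - (BL + ℓ • E)) - (τ * ℓ) • E) =
          (1 - ρ) • (TR + ℓ • -E) + ρ • BL + (τ * ℓ) • -E := by module
      rw [this]; exact hLft
    intro i j hij
    fin_cases i <;> fin_cases j
    · exact absurd rfl hij
    · exact Y01
    · exact Y02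
    · exact Y10
    · exact absurd rfl hij
    · exact Y12
    · exact Y20
    · exact Y21
    · exact absurd rfl hij

end Pool.Agent.Helper47.AI
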